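import Pool.Agent.helper11.CFL.Spec

/-! Row LM of CFL (MP_95f808): the compactness limit. -/

namespace Pool.Agent.helper11.CFL

open Finset Matrix Filter Topology

theorem LM : LM_stmt := by
  intro V E _ _ _ _ _ src tgt w β h
  have hε : ∀ n : ℕ, (0 : ℝ) < 1 / ((n : ℝ) + 1) := fun n => Nat.one_div_pos_of_nat
  choose z f hz hd hb using fun n : ℕ => h (1 / ((n : ℝ) + 1)) (hε n)
  have hK : IsCompact (Set.pi Set.univ (fun e : E => Set.Icc (-(w e + 1)) (w e + 1))) :=
    isCompact_univ_pi (fun _ => isCompact_Icc)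
  have hfK : ∀ n, f n ∈ Set.pi Set.univ (fun e : E => Set.Icc (-(w e + 1)) (w e + 1)) := by
    intro n e _
    have h1 := hb n e
    have h2 : 1 / ((n : ℝ) + 1) ≤ 1 := by
      rw [div_le_one (by positivity)]
      have : (0 : ℝ) ≤ n := Nat.cast_nonneg n
      linarith
    have h3 : |f n e| ≤ w e + 1 := by linarith
    exact abs_le.mp h3
  obtain ⟨g, -, φ, hφ, hlim⟩ := hK.tendsto_subseq hfK
  have hlime : ∀ e, Tendsto (fun n => f (φ n) e) atTop (𝓝 (g e)) := by
    intro e
    exact (tendsto_pi_nhds.mp hlim) e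
  have hbound : ∀ e, |g e| ≤ w e := by
    intro e
    have h1 : Tendsto (fun n => |f (φ n) e|) atTop (𝓝 |g e|) := (hlime e).abs
    have h2 : Tendsto (fun n : ℕ => w e + 1 / (((φ n : ℕ) : ℝ) + 1)) atTop (𝓝 (w e + 0)) := by
      apply Tendsto.const_add
      exact tendsto_one_div_add_atTop_nhds_zero_nat.comp hφ.tendsto_atTop
    rw [add_zero] at h2
    exact le_of_tendsto_of_tendsto' h1 h2 (fun n => hb (φ n) e)
  have hdv : ∀ v, Tendsto (fun n => dv src tgt (f (φ n)) v) atTop (𝓝 (dv src tgt g v)) := by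
    intro v
    unfold dv
    apply tendsto_finsetSum
    intro e _
    exact (hlime e).mul_const _
  have hzl : ∀ v, Tendsto (fun n => ((z (φ n) v : ℤ) : ℝ)) atTop
      (𝓝 ((dv src tgt g v - β v) / 2)) := by
    intro v
    have h1 : (fun n => ((z (φ n) v : ℤ) : ℝ)) = fun n => (dv src tgt (f (φ n)) v - β v) / 2 := by
      funext n
      rw [hd (φ n) v]
      ring
    rw [h1]
    exact ((hdv v).sub_const _).div_const _
  have hex : ∀ v, ∃ a : ℤ, (a : ℝ) = (dv src tgt g v - β v) / 2 := by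
    intro v
    have h1 : IsClosed (Set.range (Int.cast : ℤ → ℝ)) :=
      Int.isClosedEmbedding_coe_real.isClosed_range
    have h2 := h1.mem_of_tendsto (hzl v) (Eventually.of_forall (fun n => ⟨z (φ n) v, rfl⟩))
    exact h2
  choose a ha using hex
  refine ⟨a, g, ?_, ?_, hbound⟩
  · have h1 : Tendsto (fun n => ∑ v, ((z (φ n) v : ℤ) : ℝ)) atTop
        (𝓝 (∑ v, (dv src tgt g v - β v) / 2)) :=
      tendsto_finsetSum _ (fun v _ => hzl v)
    have h2 : (fun n => ∑ v, ((z (φ n) v : ℤ) : ℝ)) = fun _ => (0 : ℝ) := by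
      funext n
      have := hz (φ n)
      exact_mod_cast this
    rw [h2] at h1
    have h3 := tendsto_nhds_unique h1 tendsto_const_nhds
    have h4 : ∑ v, (a v : ℝ) = 0 := by
      rw [Finset.sum_congr rfl (fun v _ => ha v)]
      exact h3
    exact_mod_cast h4
  · intro v
    rw [ha v]
    ring

end Pool.Agent.helper11.CFL
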