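import Pool.Agent.helper11.CFL.Spec

/-! Row MN of CFL (MP_95f808): conductances with leverage scores at most `w + ε`. -/

namespace Pool.Agent.helper11.CFL

open Finset Matrix

namespace MNaux

variable {V E : Type} [Fintype V] [DecidableEq V] [Fintype E] [DecidableEq E]

/-- replacing `c e₀` by `(1 - δ) c e₀` multiplies the determinant by `1 - δ lev`. -/
theorem det_update (src tgt : E → V) (c : E → ℝ) (e₀ : E) (δ : ℝ)
    (hd : 0 < (Mat src tgt c).det) :
    (Mat src tgt (Function.update c e₀ ((1 - δ) * c e₀))).det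
      = (Mat src tgt c).det * (1 - δ * lev src tgt c e₀) := by
  have h1 : Mat src tgt (Function.update c e₀ ((1 - δ) * c e₀))
      = Mat src tgt c + replicateCol Unit ((-(δ * c e₀)) • inc src tgt e₀)
          * replicateRow Unit (inc src tgt e₀) := by
    ext u v
    have hs : ∀ c' : E → ℝ, ∑ e, c' e * inc src tgt e u * inc src tgt e v
        = c' e₀ * inc src tgt e₀ u * inc src tgt e₀ v
          + ∑ e ∈ univ.erase e₀, c' e * inc src tgt e u * inc src tgt e v := by
      intro c'
      rw [Finset.add_sum_erase _ (fun e => c' e * inc src tgt e u * inc src tgt e v)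
        (Finset.mem_univ e₀)]
    have h2 : ∑ e ∈ univ.erase e₀, (Function.update c e₀ ((1 - δ) * c e₀)) e
          * inc src tgt e u * inc src tgt e v
        = ∑ e ∈ univ.erase e₀, c e * inc src tgt e u * inc src tgt e v := by
      refine Finset.sum_congr rfl ?_
      intro e he
      rw [Function.update_of_ne (Finset.ne_of_mem_erase he)]
    simp only [Mat, Matrix.add_apply, Matrix.mul_apply, replicateCol_apply, replicateRow_apply,
      Finset.univ_unique, Finset.sum_singleton, Pi.smul_apply, smul_eq_mul]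
    rw [hs, hs c, h2, Function.update_self]
    ring
  rw [h1, det_add_replicateCol_mul_replicateRow (isUnit_iff_ne_zero.mpr hd.ne')]
  congr 1
  rw [Matrix.det_unique, Matrix.add_apply, Matrix.one_apply_eq, Matrix.mul_assoc,
    Matrix.mul_apply]
  have h3 : ∀ x : V, ((Mat src tgt c)⁻¹ * replicateCol Unit ((-(δ * c e₀)) • inc src tgt e₀)) x default
      = -(δ * c e₀) * ((Mat src tgt c)⁻¹ *ᵥ inc src tgt e₀) x := by
    intro x
    simp only [Matrix.mul_apply, replicateCol_apply, Pi.smul_apply, smul_eq_mul, mulVec,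
      dotProduct, Finset.mul_sum]
    refine Finset.sum_congr rfl ?_
    intro y _
    ring
  simp only [replicateRow_apply]
  rw [Finset.sum_congr rfl (fun x _ => by rw [h3 x])]
  simp only [lev, dotProduct]
  rw [show (1 : ℝ) - δ * (c e₀ * ∑ i, inc src tgt e₀ i * ((Mat src tgt c)⁻¹ *ᵥ inc src tgt e₀) i)
      = 1 + -(δ * c e₀) * ∑ i, inc src tgt e₀ i * ((Mat src tgt c)⁻¹ *ᵥ inc src tgt e₀) i by ring]
  rw [Finset.mul_sum]
  congr 1
  refine Finset.sum_congr rfl ?_
  intro y _
  ring

/-- continuity of the determinant. -/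
theorem det_cont (src tgt : E → V) : Continuous (fun c : E → ℝ => (Mat src tgt c).det) := by
  refine Continuous.matrix_det ?_
  refine continuous_matrix ?_
  intro u v
  unfold Mat
  fun_prop

/-- the scalar step. -/
theorem scalar (a L : ℝ) (ha : 0 < a)
    (h : ∀ δ : ℝ, 0 < δ → δ < 1 → (1 - δ) ^ a ≤ 1 - δ * L) : L ≤ a := by
  by_contra hL
  push Not at hL
  have hL0 : 0 < L := lt_trans ha hL
  have hd0 : 0 < (L - a) / (2 * L) := by
    apply div_pos <;> linarith
  have hd1 : (L - a) / (2 * L) < 1 := by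
    rw [div_lt_one (by linarith)]
    linarith
  have h1 := h _ hd0 hd1
  set δ := (L - a) / (2 * L) with hδ
  have h1d : 0 < 1 - δ := by linarith
  have h2 : 1 + a * (1 - (1 - δ)⁻¹) ≤ (1 - δ) ^ a := by
    rw [Real.rpow_def_of_pos h1d]
    have h3 := Real.one_sub_inv_le_log_of_pos h1d
    have h4 := Real.add_one_le_exp (Real.log (1 - δ) * a)
    have h5 : a * (1 - (1 - δ)⁻¹) ≤ Real.log (1 - δ) * a := by
      rw [mul_comm (Real.log _)]
      exact mul_le_mul_of_nonneg_left h3 ha.le
    linarith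
  have h3 : δ * L ≤ a * ((1 - δ)⁻¹ - 1) := by linarith
  have h4 : (1 - δ)⁻¹ - 1 = δ * (1 - δ)⁻¹ := by
    field_simp
    ring
  rw [h4] at h3
  have h5 : L ≤ a * (1 - δ)⁻¹ := by
    have : δ * L ≤ δ * (a * (1 - δ)⁻¹) := by linarith
    exact le_of_mul_le_mul_left this hd0
  have h6 : L * (1 - δ) ≤ a := by
    have := mul_le_mul_of_nonneg_right h5 h1d.le
    rwa [mul_assoc, inv_mul_cancel₀ h1d.ne', mul_one] at this
  have h7 : L * δ = (L - a) / 2 := by
    rw [hδ]
    field_simp
  nlinarith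

end MNaux

open MNaux in
theorem MN : MN_stmt := by
  intro V E _ _ _ _ _ src tgt w hw hPD hlow ε hε
  -- the product
  set P : (E → ℝ) → ℝ := fun c => ∏ e, (c e) ^ (w e + ε) with hP
  have hdet : ∀ c : E → ℝ, (∀ e, 0 < c e) → 0 < (Mat src tgt c).det :=
    fun c hc => (hPD c hc).det_pos
  have hPpos : ∀ c : E → ℝ, (∀ e, 0 < c e) → 0 < P c := by
    intro c hc
    exact Finset.prod_pos (fun e _ => Real.rpow_pos_of_pos (hc e) _)
  set D : ℝ := (Mat src tgt (fun _ => (1 : ℝ))).det with hD
  have hD0 : 0 < D := hdet _ (fun _ => one_pos)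
  -- the cut off
  set η : ℝ := (D + 1) ^ (-(1 / ε)) with hη
  have hη0 : 0 < η := Real.rpow_pos_of_pos (by linarith) _
  have hη1 : η < 1 := by
    apply Real.rpow_lt_one_of_one_lt_of_neg (by linarith)
    have : 0 < 1 / ε := by positivity
    linarith
  have hηε : η ^ ε = (D + 1)⁻¹ := by
    rw [hη, ← Real.rpow_mul (by linarith)]
    rw [show -(1 / ε) * ε = -1 by field_simp]
    exact Real.rpow_neg_one _
  -- Ψ is large outside the box
  have hout : ∀ c : E → ℝ, (∀ e, 0 < c e) → (∀ e, c e ≤ 1) → (∃ e, c e < η) →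
      D * P c ≤ (Mat src tgt c).det := by
    intro c hc hc1 ⟨e₀, he₀⟩
    have h1 := hlow c hc hc1
    have h2 : P c = (∏ e, (c e) ^ (w e)) * ∏ e, (c e) ^ ε := by
      rw [hP, ← Finset.prod_mul_distrib]
      exact Finset.prod_congr rfl (fun e _ => Real.rpow_add (hc e) _ _)
    have h3 : ∏ e, (c e) ^ ε ≤ (D + 1)⁻¹ := by
      rw [← Finset.mul_prod_erase _ _ (Finset.mem_univ e₀)]
      have h4 : (c e₀) ^ ε ≤ (D + 1)⁻¹ := by
        rw [← hηε]
        exact Real.rpow_le_rpow (hc e₀).le he₀.le hε.le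
      have h5 : ∏ e ∈ univ.erase e₀, (c e) ^ ε ≤ 1 :=
        Finset.prod_le_one (fun e _ => Real.rpow_nonneg (hc e).le _)
          (fun e _ => Real.rpow_le_one (hc e).le (hc1 e) hε.le)
      calc (c e₀) ^ ε * ∏ e ∈ univ.erase e₀, (c e) ^ ε ≤ (c e₀) ^ ε * 1 :=
            mul_le_mul_of_nonneg_left h5 (Real.rpow_nonneg (hc e₀).le _)
        _ ≤ (D + 1)⁻¹ := by rw [mul_one]; exact h4
    have h6 : 0 < ∏ e, (c e) ^ (w e) :=
      Finset.prod_pos (fun e _ => Real.rpow_pos_of_pos (hc e) _)
    have h7 : D * (D + 1)⁻¹ ≤ 1 := by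
      rw [← div_eq_mul_inv, div_le_one (by linarith)]
      linarith
    calc D * P c = (D * ∏ e, (c e) ^ ε) * ∏ e, (c e) ^ (w e) := by rw [h2]; ring
      _ ≤ (D * (D + 1)⁻¹) * ∏ e, (c e) ^ (w e) :=
          mul_le_mul_of_nonneg_right (mul_le_mul_of_nonneg_left h3 hD0.le) h6.le
      _ ≤ 1 * ∏ e, (c e) ^ (w e) := mul_le_mul_of_nonneg_right h7 h6.le
      _ ≤ (Mat src tgt c).det := by rw [one_mul]; exact h1
  -- the minimum on the box
  set K : Set (E → ℝ) := Set.pi Set.univ (fun _ => Set.Icc η 1) with hK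
  have hKc : IsCompact K := isCompact_univ_pi (fun _ => isCompact_Icc)
  have hKne : K.Nonempty := ⟨fun _ => 1, fun _ _ => ⟨hη1.le, le_refl _⟩⟩
  have hKpos : ∀ c ∈ K, ∀ e, 0 < c e := fun c hc e => lt_of_lt_of_le hη0 (hc e (Set.mem_univ _)).1
  have hcont : ContinuousOn (fun c : E → ℝ => (Mat src tgt c).det / P c) K := by
    apply ContinuousOn.div
    · exact (det_cont src tgt).continuousOn
    · rw [hP]
      apply continuousOn_finsetProd
      intro e _
      apply ContinuousOn.rpow_const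
      · exact (continuous_apply e).continuousOn
      · intro c hc
        exact Or.inl (hKpos c hc e).ne'
    · intro c hc
      exact (hPpos c (hKpos c hc)).ne'
  obtain ⟨c, hcK, hmin⟩ := hKc.exists_isMinOn hKne hcont
  have hc0 := hKpos c hcK
  have hc1 : ∀ e, c e ≤ 1 := fun e => (hcK e (Set.mem_univ _)).2
  have hle : ∀ c' : E → ℝ, (∀ e, 0 < c' e) → (∀ e, c' e ≤ 1) →
      (Mat src tgt c).det / P c ≤ (Mat src tgt c').det / P c' := by
    intro c' hc'0 hc'1
    by_cases hex : ∃ e, c' e < η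
    · have h1 : D ≤ (Mat src tgt c').det / P c' := by
        rw [le_div_iff₀ (hPpos c' hc'0)]
        exact hout c' hc'0 hc'1 hex
      have h2 : (Mat src tgt c).det / P c ≤ D := by
        have h3 := hmin (show (fun _ => (1 : ℝ)) ∈ K from fun _ _ => ⟨hη1.le, le_refl _⟩)
        have h4 : P (fun _ => (1 : ℝ)) = 1 := by
          simp [hP]
        simpa [h4] using h3
      exact h2.trans h1
    · push Not at hex
      exact hmin (show c' ∈ K from fun e _ => ⟨hex e, hc'1 e⟩)
  refine ⟨c, hc0, ?_⟩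
  intro e₀
  apply scalar (w e₀ + ε) _ (by have := hw e₀; linarith)
  intro δ hδ0 hδ1
  have h1d : 0 < 1 - δ := by linarith
  set c' := Function.update c e₀ ((1 - δ) * c e₀) with hc'
  have hc'0 : ∀ e, 0 < c' e := by
    intro e
    by_cases he : e = e₀
    · subst he
      rw [hc', Function.update_self]
      exact mul_pos h1d (hc0 _)
    · rw [hc', Function.update_of_ne he]
      exact hc0 e
  have hc'1 : ∀ e, c' e ≤ 1 := by
    intro e
    by_cases he : e = e₀
    · subst he
      rw [hc', Function.update_self]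
      have := hc1 e
      have := hc0 e
      nlinarith
    · rw [hc', Function.update_of_ne he]
      exact hc1 e
  have h2 := hle c' hc'0 hc'1
  have h3 : P c' = (1 - δ) ^ (w e₀ + ε) * P c := by
    have hs : ∀ c'' : E → ℝ, P c'' = (c'' e₀) ^ (w e₀ + ε)
        * ∏ e ∈ univ.erase e₀, (c'' e) ^ (w e + ε) := by
      intro c''
      rw [hP, Finset.mul_prod_erase _ (fun e => (c'' e) ^ (w e + ε)) (Finset.mem_univ e₀)]
    have h4 : ∏ e ∈ univ.erase e₀, (c' e) ^ (w e + ε)
        = ∏ e ∈ univ.erase e₀, (c e) ^ (w e + ε) := by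
      refine Finset.prod_congr rfl ?_
      intro e he
      rw [hc', Function.update_of_ne (Finset.ne_of_mem_erase he)]
    rw [hs c', hs c, h4, hc', Function.update_self, Real.mul_rpow h1d.le (hc0 e₀).le]
    ring
  have h4 := det_update src tgt c e₀ δ (hdet c hc0)
  rw [← hc'] at h4
  rw [h3, h4, div_le_div_iff₀ (hPpos c hc0)
    (mul_pos (Real.rpow_pos_of_pos h1d _) (hPpos c hc0))] at h2
  have h5 : 0 < (Mat src tgt c).det * P c := mul_pos (hdet c hc0) (hPpos c hc0)
  have h6 : ((Mat src tgt c).det * P c) * (1 - δ) ^ (w e₀ + ε)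
      ≤ ((Mat src tgt c).det * P c) * (1 - δ * lev src tgt c e₀) := by
    linarith
  exact le_of_mul_le_mul_left h6 h5

end Pool.Agent.helper11.CFL
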