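import Pool.Agent.helper11.CFL.Spec

/-! Row PD of CFL (MP_95f808): positive definiteness of the weighted Laplacian plus `J`. -/

namespace Pool.Agent.helper11.CFL

open Finset Matrix

theorem PD : PD_stmt := by
  intro V E _ _ _ _ _ src tgt T hT c hc
  have hsymm : (Mat src tgt c).IsHermitian := by
    ext u v
    simp only [conjTranspose_apply, Mat, star_trivial]
    congr 1
    exact Finset.sum_congr rfl (fun e _ => by ring)
  have hform : ∀ x : V → ℝ, x ⬝ᵥ (Mat src tgt c *ᵥ x)
      = ∑ e, c e * (inc src tgt e ⬝ᵥ x) ^ 2 + (∑ u, x u) ^ 2 := by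
    intro x
    have h1 : ∀ v, (Mat src tgt c *ᵥ x) v
        = ∑ e, (c e * (inc src tgt e ⬝ᵥ x)) * inc src tgt e v + ∑ u, x u := by
      intro v
      simp only [mulVec, dotProduct, Mat, add_mul, Finset.sum_add_distrib, one_mul]
      congr 1
      simp only [Finset.sum_mul, Finset.mul_sum]
      rw [Finset.sum_comm]
      refine Finset.sum_congr rfl (fun e _ => Finset.sum_congr rfl (fun u _ => ?_))
      ring
    have h2 : x ⬝ᵥ (Mat src tgt c *ᵥ x)
        = ∑ v, x v * (∑ e, (c e * (inc src tgt e ⬝ᵥ x)) * inc src tgt e v + ∑ u, x u) := by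
      unfold dotProduct
      exact Finset.sum_congr rfl (fun v _ => by rw [h1]; rfl)
    rw [h2]
    simp only [mul_add, Finset.sum_add_distrib, Finset.mul_sum]
    rw [Finset.sum_comm]
    congr 1
    · refine Finset.sum_congr rfl (fun e _ => ?_)
      have h3 : ∑ v, x v * (c e * (inc src tgt e ⬝ᵥ x) * inc src tgt e v)
          = (c e * (inc src tgt e ⬝ᵥ x)) * ∑ v, inc src tgt e v * x v := by
        rw [Finset.mul_sum]
        exact Finset.sum_congr rfl (fun v _ => by ring)
      rw [h3]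
      have h4 : ∑ v, inc src tgt e v * x v = inc src tgt e ⬝ᵥ x := rfl
      rw [h4]
      ring
    · rw [sq, Finset.sum_mul_sum]
  have hinc : ∀ (e : E) (x : V → ℝ), inc src tgt e ⬝ᵥ x = x (src e) - x (tgt e) := by
    intro e x
    simp [dotProduct, inc, sub_mul, Finset.sum_sub_distrib]
  refine PosDef.of_dotProduct_mulVec_pos hsymm ?_
  intro x hx
  rw [star_trivial, hform]
  have hnn : 0 ≤ ∑ e, c e * (inc src tgt e ⬝ᵥ x) ^ 2 :=
    Finset.sum_nonneg (fun e _ => mul_nonneg (hc e).le (sq_nonneg _))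
  by_contra hneg
  have hle : ∑ e, c e * (inc src tgt e ⬝ᵥ x) ^ 2 + (∑ u, x u) ^ 2 ≤ 0 := not_lt.mp hneg
  have hs2 : (∑ u, x u) ^ 2 = 0 := by
    have := sq_nonneg (∑ u, x u)
    linarith
  have hs : ∑ u, x u = 0 := by simpa using hs2
  have he0 : ∑ e, c e * (inc src tgt e ⬝ᵥ x) ^ 2 = 0 := by
    have := sq_nonneg (∑ u, x u)
    linarith
  have hall : ∀ e, x (src e) = x (tgt e) := by
    intro e
    have h1 := (Finset.sum_eq_zero_iff_of_nonneg
      (fun e _ => mul_nonneg (hc e).le (sq_nonneg (inc src tgt e ⬝ᵥ x)))).mp he0 e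
      (Finset.mem_univ e)
    rcases mul_eq_zero.mp h1 with h | h
    · exact absurd h (hc e).ne'
    · have h2 : inc src tgt e ⬝ᵥ x = 0 := by simpa using h
      rw [hinc] at h2
      linarith
  have hconst := hT.2 x (fun e _ => hall e)
  apply hx
  ext v
  have h3 : ∑ u, x u = (Fintype.card V : ℝ) * x v := by
    rw [Finset.sum_congr rfl (fun u _ => hconst u v)]
    simp
  rw [hs] at h3
  have h4 : (Fintype.card V : ℝ) ≠ 0 := by exact_mod_cast Fintype.card_ne_zero
  rcases mul_eq_zero.mp h3.symm with h | h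
  · exact absurd h h4
  · simpa using h

end Pool.Agent.helper11.CFL
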